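import Pool.Agent.Helper20.QD.St4

/-!
# Project QD, part B, module FSU: Fuchsian representations are convex cocompact
-/

open Filter Topology Matrix Set Metric
open scoped ComplexConjugate ComplexOrder

namespace Pool.Agent.Helper42.QD

open Pool.Agent.Helper35.PM Pool.Agent.Helper20.QD

/-- The matrix with equal diagonal entries. -/
private noncomputable def W (x : ℂ) : Mat := !![1 / 2, x / 2; conj x / 2, 1 / 2]

/-- From the Poincare to the Klein model. -/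
private noncomputable def kw (w : ℂ) : ℂ := 2 * w / ((1 + ‖w‖ ^ 2 : ℝ) : ℂ)

private lemma su_det (A : SL) (h : IsSU A) : ‖(A : Mat) 0 0‖ ^ 2 - ‖(A : Mat) 0 1‖ ^ 2 = 1 := by
  have hdet : (A : Mat).det = 1 := A.det_coe
  rw [Matrix.det_fin_two, h.1, h.2, Complex.mul_conj, Complex.mul_conj,
    Complex.normSq_eq_norm_sq, Complex.normSq_eq_norm_sq] at hdet
  exact_mod_cast hdet

private lemma su_ne (A : SL) (h : IsSU A) : (A : Mat) 0 0 ≠ 0 := by
  intro h0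
  have := su_det A h
  rw [h0, norm_zero] at this
  nlinarith [sq_nonneg ‖(A : Mat) 0 1‖]

private lemma O_eq (A : SL) (h : IsSU A) :
    density ((A : Mat) * (A : Mat)ᴴ) = W (kw (mob A 0)) := by
  have ha := su_ne A h
  have hdet := su_det A h
  have hmat : (A : Mat) = !![(A : Mat) 0 0, (A : Mat) 0 1; conj ((A : Mat) 0 1),
      conj ((A : Mat) 0 0)] := by
    rw [← h.1, ← h.2]
    exact Matrix.eta_fin_two _
  have hmob : mob A 0 = (A : Mat) 0 1 / conj ((A : Mat) 0 0) := by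
    unfold mob
    rw [mul_zero, mul_zero, zero_add, zero_add, h.1]
  rw [hmob]
  set a : ℂ := (A : Mat) 0 0 with had
  set b : ℂ := (A : Mat) 0 1 with hbd
  have hN : (0 : ℝ) < ‖a‖ ^ 2 + ‖b‖ ^ 2 := by nlinarith [sq_nonneg ‖b‖]
  have hNc : ((‖a‖ ^ 2 + ‖b‖ ^ 2 : ℝ) : ℂ) ≠ 0 := by exact_mod_cast hN.ne'
  have haa : a * conj a = ((‖a‖ ^ 2 : ℝ) : ℂ) := by
    rw [Complex.mul_conj, Complex.normSq_eq_norm_sq]
  have hbb : b * conj b = ((‖b‖ ^ 2 : ℝ) : ℂ) := by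
    rw [Complex.mul_conj, Complex.normSq_eq_norm_sq]
  have hprod : (A : Mat) * (A : Mat)ᴴ = !![((‖a‖ ^ 2 + ‖b‖ ^ 2 : ℝ) : ℂ), 2 * (a * b);
      2 * (conj a * conj b), ((‖a‖ ^ 2 + ‖b‖ ^ 2 : ℝ) : ℂ)] := by
    rw [hmat]
    ext i j
    fin_cases i <;> fin_cases j
    · simp only [Matrix.mul_apply, Fin.sum_univ_two, Matrix.conjTranspose_apply]
      simp
      rw [haa, hbb]
      push_cast
      ring
    · simp only [Matrix.mul_apply, Fin.sum_univ_two, Matrix.conjTranspose_apply]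
      simp
      ring
    · simp only [Matrix.mul_apply, Fin.sum_univ_two, Matrix.conjTranspose_apply]
      simp
      ring
    · simp only [Matrix.mul_apply, Fin.sum_univ_two, Matrix.conjTranspose_apply]
      simp
      rw [mul_comm (conj b) b, mul_comm (conj a) a, haa, hbb]
      push_cast
      ring
  have hk : kw (b / conj a) = 2 * (a * b) / ((‖a‖ ^ 2 + ‖b‖ ^ 2 : ℝ) : ℂ) := by
    unfold kw
    have hca : conj a ≠ 0 := (map_ne_zero _).mpr ha
    have h1 : ((1 + ‖b / conj a‖ ^ 2 : ℝ) : ℂ) =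
        ((‖a‖ ^ 2 + ‖b‖ ^ 2 : ℝ) : ℂ) / (a * conj a) := by
      rw [haa]
      have hna : ‖a‖ ≠ 0 := norm_ne_zero_iff.mpr ha
      rw [← Complex.ofReal_div]
      congr 1
      rw [norm_div, RCLike.norm_conj]
      field_simp
    rw [h1]
    field_simp
  unfold density
  rw [hprod, Matrix.trace_fin_two_of, hk]
  unfold W
  ext i j
  fin_cases i <;> fin_cases j
  · simp
    field_simp
    norm_num
  · simp
    field_simp
    norm_num
  · simp
    field_simp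
    rw [map_ofNat]
    ring
  · simp
    field_simp
    norm_num

private lemma kw_norm (w : ℂ) : ‖kw w‖ = 2 * ‖w‖ / (1 + ‖w‖ ^ 2) := by
  unfold kw
  rw [norm_div, norm_mul, Complex.norm_real, Real.norm_eq_abs, abs_of_nonneg (by positivity)]
  norm_num

private lemma kw_norm_le (w : ℂ) (r : ℝ) (hr : r < 1) (hw : ‖w‖ ≤ r) :
    ‖kw w‖ ≤ 2 * r / (1 + r ^ 2) := by
  rw [kw_norm, div_le_div_iff₀ (by positivity) (by positivity)]
  have h0 := norm_nonneg w
  nlinarith [mul_nonneg (sub_nonneg.mpr hw) (show 0 ≤ 1 - ‖w‖ * r by nlinarith)]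

private lemma kr_lt (r : ℝ) (hr : r < 1) : 2 * r / (1 + r ^ 2) < 1 := by
  rw [div_lt_one (by positivity)]
  nlinarith [sq_pos_of_pos (sub_pos.mpr hr)]

private lemma kw_lt (w : ℂ) (hw : w ∈ D) : kw w ∈ D := by
  have h1 : ‖w‖ < 1 := by simpa using hw
  have := (kw_norm_le w ‖w‖ h1 le_rfl).trans_lt (kr_lt ‖w‖ h1)
  simpa using this

private lemma kw_surj (x : ℂ) (hx : x ∈ D) : ∃ w ∈ D, kw w = x := by
  have h1 : ‖x‖ < 1 := by simpa using hx
  have h2 : 0 < 1 - ‖x‖ ^ 2 := by nlinarith [norm_nonneg x]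
  set s : ℝ := Real.sqrt (1 - ‖x‖ ^ 2) with hs
  have hs0 : 0 < s := Real.sqrt_pos.mpr h2
  have hs2 : s ^ 2 = 1 - ‖x‖ ^ 2 := Real.sq_sqrt h2.le
  have hw2 : ‖x / ((1 + s : ℝ) : ℂ)‖ ^ 2 = (1 - s) / (1 + s) := by
    rw [norm_div, Complex.norm_real, Real.norm_eq_abs, abs_of_pos (by positivity)]
    have : ‖x‖ ^ 2 = (1 - s) * (1 + s) := by nlinarith
    rw [div_pow, this]
    field_simp
  refine ⟨x / ((1 + s : ℝ) : ℂ), ?_, ?_⟩
  · rw [mem_ball, dist_zero_right]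
    have : ‖x / ((1 + s : ℝ) : ℂ)‖ ^ 2 < 1 := by
      rw [hw2, div_lt_one (by positivity)]
      linarith
    nlinarith [norm_nonneg (x / ((1 + s : ℝ) : ℂ))]
  · unfold kw
    rw [hw2]
    have h3 : (1 + (1 - s) / (1 + s) : ℝ) = 2 / (1 + s) := by
      field_simp
      ring
    rw [h3]
    have h4 : ((1 + s : ℝ) : ℂ) ≠ 0 := by
      have : (1 + s : ℝ) ≠ 0 := by positivity
      exact_mod_cast this
    push_cast at h4 ⊢
    field_simp

private lemma kw_close (w ζ : ℂ) (hζ : ‖ζ‖ = 1) (hw : ‖w‖ ≤ 1) : ‖kw w - ζ‖ ≤ 4 * ‖w - ζ‖ := by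
  have hN : (0 : ℝ) < 1 + ‖w‖ ^ 2 := by positivity
  have hNc : ((1 + ‖w‖ ^ 2 : ℝ) : ℂ) ≠ 0 := by exact_mod_cast hN.ne'
  have h1 : kw w - ζ = (2 * (w - ζ) + ζ * ((1 - ‖w‖ ^ 2 : ℝ) : ℂ)) / ((1 + ‖w‖ ^ 2 : ℝ) : ℂ) := by
    unfold kw
    rw [div_sub' hNc]
    congr 1
    push_cast
    ring
  have h2 : 1 - ‖w‖ ≤ ‖w - ζ‖ := by
    have := norm_sub_norm_le ζ w
    rw [hζ, norm_sub_rev] at this
    exact this
  rw [h1, norm_div, Complex.norm_real, Real.norm_eq_abs, abs_of_pos hN, div_le_iff₀ hN]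
  have h3 : ‖2 * (w - ζ) + ζ * ((1 - ‖w‖ ^ 2 : ℝ) : ℂ)‖ ≤ 2 * ‖w - ζ‖ + (1 - ‖w‖ ^ 2) := by
    calc ‖2 * (w - ζ) + ζ * ((1 - ‖w‖ ^ 2 : ℝ) : ℂ)‖
        ≤ ‖2 * (w - ζ)‖ + ‖ζ * ((1 - ‖w‖ ^ 2 : ℝ) : ℂ)‖ := norm_add_le _ _
      _ = 2 * ‖w - ζ‖ + (1 - ‖w‖ ^ 2) := by
          rw [norm_mul, norm_mul, hζ, one_mul, Complex.norm_real, Real.norm_eq_abs,
            abs_of_nonneg (by nlinarith [norm_nonneg w])]
          norm_num
  have h4 := norm_nonneg w
  nlinarith [norm_nonneg (w - ζ), sq_nonneg ‖w‖,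
    mul_nonneg (norm_nonneg (w - ζ)) (sq_nonneg ‖w‖)]

private lemma fr_W (x y : ℂ) : fr (W x) (W y) = ‖x - y‖ ^ 2 / 2 := by
  unfold fr hs W
  have h2 : ‖conj x / 2 - conj y / 2‖ = ‖x - y‖ / 2 := by
    rw [← sub_div, ← map_sub, norm_div, RCLike.norm_conj]
    norm_num
  have h1 : ‖x / 2 - y / 2‖ = ‖x - y‖ / 2 := by
    rw [← sub_div, norm_div]
    norm_num
  simp only [Fin.sum_univ_two, Matrix.sub_apply]
  simp
  rw [h1, h2]
  ring

private lemma Qp_eq (ζ : ℂ) (hζ : ‖ζ‖ = 1) : Qp ζ = W ζ := by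
  unfold Qp W
  rw [hζ]
  ext i j
  fin_cases i <;> fin_cases j <;> simp <;> norm_num <;> ring

private lemma W_cont : Continuous W := by
  unfold W
  refine continuous_matrix fun i j => ?_
  fin_cases i <;> fin_cases j <;> simp <;> fun_prop

private lemma su_est (A : SL) (h : IsSU A) (u : ℂ) (r : ℝ) (hr : r < 1) (hu : ‖u‖ ≤ r) :
    ‖mob A u - mob A 0‖ ≤ 1 / ((1 - r) * ‖(A : Mat) 0 0‖ ^ 2) ∧
    1 - r ^ 2 ≤ 4 * ‖(A : Mat) 0 0‖ ^ 2 * (1 - ‖mob A u‖ ^ 2) := by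
  have ha := su_ne A h
  have hdet := su_det A h
  unfold mob
  rw [mul_zero, mul_zero, zero_add, zero_add, h.1, h.2]
  set a : ℂ := (A : Mat) 0 0 with had
  set b : ℂ := (A : Mat) 0 1 with hbd
  have hu0 := norm_nonneg u
  have hr0 : 0 ≤ r := hu0.trans hu
  have ha0 : 0 < ‖a‖ := norm_pos_iff.mpr ha
  have hb0 := norm_nonneg b
  have hba : ‖b‖ ≤ ‖a‖ := by nlinarith
  have hden_le : ‖conj b * u + conj a‖ ≤ 2 * ‖a‖ := by
    calc ‖conj b * u + conj a‖ ≤ ‖conj b * u‖ + ‖conj a‖ := norm_add_le _ _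
      _ = ‖b‖ * ‖u‖ + ‖a‖ := by rw [norm_mul, RCLike.norm_conj, RCLike.norm_conj]
      _ ≤ 2 * ‖a‖ := by nlinarith
  have hden_ge : ‖a‖ * (1 - r) ≤ ‖conj b * u + conj a‖ := by
    have h1 : ‖conj a‖ ≤ ‖conj b * u + conj a‖ + ‖conj b * u‖ := by
      have := norm_sub_le (conj b * u + conj a) (conj b * u)
      rwa [add_sub_cancel_left] at this
    rw [norm_mul, RCLike.norm_conj, RCLike.norm_conj] at h1
    nlinarith [mul_le_mul hba hu hu0 ha0.le]
  have hden0 : 0 < ‖conj b * u + conj a‖ := lt_of_lt_of_le (by nlinarith) hden_ge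
  have hdenc : conj b * u + conj a ≠ 0 := norm_pos_iff.mp hden0
  have hca : conj a ≠ 0 := (map_ne_zero _).mpr ha
  constructor
  · have h1 : (a * u + b) / (conj b * u + conj a) - b / conj a =
        u / ((conj b * u + conj a) * conj a) := by
      have haa : a * conj a = ((‖a‖ ^ 2 : ℝ) : ℂ) := by
        rw [Complex.mul_conj, Complex.normSq_eq_norm_sq]
      have hbb : b * conj b = ((‖b‖ ^ 2 : ℝ) : ℂ) := by
        rw [Complex.mul_conj, Complex.normSq_eq_norm_sq]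
      have hd : a * conj a - b * conj b = 1 := by
        rw [haa, hbb, ← Complex.ofReal_sub, hdet, Complex.ofReal_one]
      rw [div_sub_div _ _ hdenc hca]
      congr 1
      linear_combination u * hd
    rw [h1, norm_div, norm_mul, RCLike.norm_conj]
    have h2 : (1 - r) * ‖a‖ ^ 2 ≤ ‖conj b * u + conj a‖ * ‖a‖ := by nlinarith
    have h3 : 0 < (1 - r) * ‖a‖ ^ 2 := mul_pos (by linarith) (by positivity)
    rw [div_le_div_iff₀ (by positivity) h3]
    nlinarith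
  · have key : ‖conj b * u + conj a‖ ^ 2 - ‖a * u + b‖ ^ 2 = 1 - ‖u‖ ^ 2 := by
      have h1 : ‖conj b * u + conj a‖ ^ 2 - ‖a * u + b‖ ^ 2 =
          (1 - ‖u‖ ^ 2) * (‖a‖ ^ 2 - ‖b‖ ^ 2) := by
        simp only [← Complex.normSq_eq_norm_sq, Complex.normSq_apply]
        simp
        ring
      rw [h1, hdet, mul_one]
    have hz : 1 - ‖(a * u + b) / (conj b * u + conj a)‖ ^ 2 =
        (1 - ‖u‖ ^ 2) / ‖conj b * u + conj a‖ ^ 2 := by
      have hq : ‖conj b * u + conj a‖ ^ 2 ≠ 0 := (pow_pos hden0 2).ne'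
      rw [norm_div, div_pow, ← key, eq_div_iff hq, sub_mul, div_mul_cancel₀ _ hq, one_mul]
    rw [hz]
    have h1 : 0 ≤ 1 - ‖u‖ ^ 2 := by nlinarith
    have h2 : 1 - r ^ 2 ≤ 1 - ‖u‖ ^ 2 := by nlinarith
    have h3 : ‖conj b * u + conj a‖ ^ 2 ≤ 4 * ‖a‖ ^ 2 := by nlinarith
    refine h2.trans ?_
    rw [mul_div_assoc', le_div_iff₀ (by positivity), mul_comm]
    exact mul_le_mul_of_nonneg_right h3 h1

private lemma density_smul (c : ℂ) (hc : c ≠ 0) (P : Mat) : density (c • P) = density P := by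
  unfold density
  rw [Matrix.trace_smul, smul_smul, smul_eq_mul, mul_inv, mul_comm c⁻¹, mul_assoc,
    inv_mul_cancel₀ hc, mul_one]

private lemma act_O (hLMX : StLMX) (A B : SL) :
    act A (density ((B : Mat) * (B : Mat)ᴴ)) =
      density (((A * B : SL) : Mat) * ((A * B : SL) : Mat)ᴴ) := by
  have ht : ((B : Mat) * (B : Mat)ᴴ).trace ≠ 0 := by
    intro h
    have h1 := (hLMX.2.2.2.1 B).2.1
    unfold density at h1
    rw [h] at h1
    simp at h1
  unfold act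
  have h1 : (A : Mat) * density ((B : Mat) * (B : Mat)ᴴ) * (A : Mat)ᴴ =
      (((B : Mat) * (B : Mat)ᴴ).trace)⁻¹ •
        (((A * B : SL) : Mat) * ((A * B : SL) : Mat)ᴴ) := by
    unfold density
    rw [Matrix.mul_smul, Matrix.smul_mul, Matrix.SpecialLinearGroup.coe_mul,
      Matrix.conjTranspose_mul]
    simp only [Matrix.mul_assoc]
  rw [h1, density_smul _ (inv_ne_zero ht)]

private lemma mem_limitSet_iff {Γ : Type} [Group Γ] (hLFR : StLFR) (ρ : Γ →* SL) (Q : Mat) :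
    Q ∈ limitSet ρ ↔ ∀ δ : ℝ, 0 < δ → {γ : Γ | fr (orb ρ γ) Q < δ}.Infinite := by
  have hb := hLFR.2.2.2 Q
  constructor
  · intro h δ hδ
    have h1 : MapClusterPt Q cofinite (fun γ : Γ => orb ρ γ) := h
    have h2 := (mapClusterPt_iff_frequently.mp h1) _ (hb.mem_of_mem hδ)
    exact frequently_cofinite_iff_infinite.mp h2
  · intro h
    have h1 : MapClusterPt Q cofinite (fun γ : Γ => orb ρ γ) := by
      rw [mapClusterPt_iff_frequently]
      intro s hs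
      obtain ⟨δ, hδ, hsub⟩ := hb.mem_iff.mp hs
      have h2 : ∃ᶠ γ in cofinite, fr (orb ρ γ) Q < δ := frequently_cofinite_iff_infinite.mpr (h δ hδ)
      exact h2.mono fun γ hγ => hsub hγ
    exact h1

/-- FSU (Fuchsian representations are convex cocompact). -/
theorem hFSU (hSUB : StSUB) (hLFR : StLFR) (hLQC : StLQC) (hLMX : StLMX) (hLLS : StLLS) :
    StFSU := by
  intro Γ _ σ hσ
  obtain ⟨r, hr1, hrc⟩ := hσ.cocompact
  have hr0 : 0 ≤ r := by
    obtain ⟨γ, hγ⟩ := hrc 0 (by simp)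
    exact (norm_nonneg _).trans hγ
  have hSU1 := hSUB.1
  have hden0 : ∀ A : SL, IsSU A → ∀ z ∈ DD, den A z ≠ 0 := fun A hA => (hSU1 A hA).2.1
  have horbW : ∀ γ, orb σ γ = W (kw (mob (σ γ) 0)) := fun γ => O_eq (σ γ) (hσ.su γ)
  have h0D : (0 : ℂ) ∈ D := by simp
  have h0DD : (0 : ℂ) ∈ DD := by simp
  have hmob0D : ∀ A : SL, IsSU A → mob A 0 ∈ D := fun A hA => (hSU1 A hA).2.2.1.mapsTo h0D
  -- every `W x`, `x ∈ D`, is an orbit point
  have hW : ∀ x ∈ D, ∃ B : SL, IsSU B ∧ kw (mob B 0) = x ∧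
      density ((B : Mat) * (B : Mat)ᴴ) = W x := by
    intro x hx
    obtain ⟨w, hw, hkw⟩ := kw_surj x hx
    obtain ⟨B, hB, hBw⟩ := hSUB.2.2.1 w hw
    refine ⟨B, hB, by rw [hBw, hkw], ?_⟩
    rw [O_eq B hB, hBw, hkw]
  have hWpos : ∀ x ∈ D, (W x).PosDef ∧ (W x).trace = 1 := by
    intro x hx
    obtain ⟨B, _, _, h3⟩ := hW x hx
    rw [← h3]
    exact ⟨(hLMX.2.2.2.1 B).1, (hLMX.2.2.2.1 B).2.1⟩
  have hactW : ∀ γ, ∀ B : SL, IsSU B → act (σ γ) (W (kw (mob B 0))) =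
      W (kw (mob (σ γ) (mob B 0))) := by
    intro γ B hB
    rw [← O_eq B hB, act_O hLMX, O_eq _ (hSUB.2.1 _ _ (hσ.su γ) hB),
      (hSUB.2.2.2.1 (σ γ) B 0 (hden0 B hB 0 h0DD)).1]
  have hclose : ∀ ζ ∈ SS, ∀ γ, fr (orb σ γ) (Qp ζ) ≤ 8 * ‖mob (σ γ) 0 - ζ‖ ^ 2 := by
    intro ζ hζ γ
    have hζ1 : ‖ζ‖ = 1 := by simpa using hζ
    have hm : ‖mob (σ γ) 0‖ ≤ 1 := by
      have := hmob0D (σ γ) (hσ.su γ)
      rw [mem_ball, dist_zero_right] at this
      exact this.le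
    rw [horbW, Qp_eq ζ hζ1, fr_W]
    have h1 := kw_close (mob (σ γ) 0) ζ hζ1 hm
    nlinarith [norm_nonneg (kw (mob (σ γ) 0) - ζ)]
  refine ⟨⟨hσ.discrete, ?_⟩, ?_, ?_⟩
  · -- convex cocompactness
    refine ⟨W '' D, W '' closedBall 0 (2 * r / (1 + r ^ 2)), ⟨W 0, 0, h0D, rfl⟩, ?_, ?_, ?_, ?_, ?_,
      ?_⟩
    · rintro P ⟨x, hx, rfl⟩ Q ⟨y, hy, rfl⟩ s t hs ht hst
      refine ⟨s • x + t • y, (convex_ball (0 : ℂ) 1) hx hy hs ht hst, ?_⟩
      have hst' : (s : ℂ) + (t : ℂ) = 1 := by exact_mod_cast hst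
      unfold W
      ext i j
      fin_cases i <;> fin_cases j
      · simp
        rw [← add_mul, hst', one_mul]
      · simp
        ring
      · simp
        ring
      · simp
        rw [← add_mul, hst', one_mul]
    · rintro P ⟨x, hx, rfl⟩
      exact hWpos x hx
    · rintro γ P ⟨x, hx, rfl⟩
      obtain ⟨B, hB, hBx, _⟩ := hW x hx
      have h1 := hactW γ B hB
      rw [hBx] at h1
      refine ⟨kw (mob (σ γ) (mob B 0)), ?_, h1.symm⟩
      exact kw_lt _ ((hSU1 _ (hσ.su γ)).2.2.1.mapsTo (hmob0D B hB))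
    · exact (isCompact_closedBall _ _).image W_cont
    · rintro P ⟨x, hx, rfl⟩
      refine hWpos x ?_
      rw [mem_closedBall] at hx
      exact hx.trans_lt (kr_lt r hr1)
    · rintro P ⟨x, hx, rfl⟩
      obtain ⟨B, hB, hBx, _⟩ := hW x hx
      obtain ⟨γ, hγ⟩ := hrc (mob B 0) (hmob0D B hB)
      have h1 := hactW γ B hB
      rw [hBx] at h1
      refine ⟨γ, kw (mob (σ γ) (mob B 0)), ?_, h1.symm⟩
      rw [mem_closedBall, dist_zero_right]
      exact kw_norm_le _ r hr1 hγ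
  · -- the limit set
    apply Set.Subset.antisymm
    · intro Q hQ
      have hsph := (hLLS Γ σ hσ.discrete).2.1 hQ
      have h1 : MapClusterPt Q cofinite (fun γ : Γ => orb σ γ) := hQ
      have hcl : IsClosed {P : Mat | P 0 0 = P 1 1} := isClosed_eq (by fun_prop) (by fun_prop)
      have hdiag : Q ∈ {P : Mat | P 0 0 = P 1 1} := by
        rw [← hcl.closure_eq, mem_closure_iff_clusterPt]
        refine ClusterPt.mono h1 ?_
        rw [le_principal_iff, mem_map]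
        refine univ_mem' fun γ => ?_
        show orb σ γ 0 0 = orb σ γ 1 1
        rw [horbW]
        rfl
      have hdiag' : Q 0 0 = Q 1 1 := hdiag
      rcases hLQC.1 Q hsph with h | ⟨z, hz⟩
      · rw [h] at hdiag'
        simp [Qinf] at hdiag'
      · refine ⟨z, ?_, hz.symm⟩
        rw [hz] at hdiag'
        unfold Qp at hdiag'
        have hne : ((1 + ‖z‖ ^ 2 : ℝ) : ℂ) ≠ 0 := by
          have : (1 + ‖z‖ ^ 2 : ℝ) ≠ 0 := by positivity
          exact_mod_cast this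
        rw [Matrix.smul_apply, Matrix.smul_apply, smul_eq_mul, smul_eq_mul] at hdiag'
        have h2 := mul_left_cancel₀ (inv_ne_zero hne) hdiag'
        have h3 : ((‖z‖ ^ 2 : ℝ) : ℂ) = 1 := h2
        have h4 : ‖z‖ ^ 2 = 1 := by exact_mod_cast h3
        rw [mem_sphere, dist_zero_right]
        nlinarith [norm_nonneg z]
    · rintro Q ⟨ζ, hζ, rfl⟩
      have hζ1 : ‖ζ‖ = 1 := by simpa using hζ
      rw [mem_limitSet_iff hLFR]
      intro ε hε
      -- enough: infinitely many `γ` with `mob (σ γ) 0` close to `ζ`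
      set δ : ℝ := min 1 (ε / 8) with hδ
      have hδ0 : 0 < δ := lt_min one_pos (by positivity)
      have hsub : {γ : Γ | ‖mob (σ γ) 0 - ζ‖ < δ} ⊆ {γ : Γ | fr (orb σ γ) (Qp ζ) < ε} := by
        intro γ hγ
        have h1 : ‖mob (σ γ) 0 - ζ‖ < δ := hγ
        have h2 : ‖mob (σ γ) 0 - ζ‖ < 1 := h1.trans_le (min_le_left _ _)
        have h3 : ‖mob (σ γ) 0 - ζ‖ < ε / 8 := h1.trans_le (min_le_right _ _)
        show fr (orb σ γ) (Qp ζ) < ε
        have h4 := hclose ζ hζ γ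
        nlinarith [norm_nonneg (mob (σ γ) 0 - ζ)]
      refine Set.Infinite.mono hsub ?_
      intro hfin
      obtain ⟨M, hM⟩ := (hfin.image (fun γ : Γ => ‖(σ γ : Mat) 0 0‖ ^ 2)).bddAbove
      have hM' : ∀ γ : Γ, ‖mob (σ γ) 0 - ζ‖ < δ → ‖(σ γ : Mat) 0 0‖ ^ 2 ≤ M := fun γ hγ =>
        hM ⟨γ, hγ, rfl⟩
      set C : ℝ := 4 / ((1 - r) * (1 - r ^ 2)) with hC
      have h1r : 0 < 1 - r := by linarith
      have h1r2 : 0 < 1 - r ^ 2 := by nlinarith
      have hC0 : 0 < C := by positivity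
      set N : ℝ := max M 1 with hN
      have hN0 : 0 < N := lt_of_lt_of_le one_pos (le_max_right _ _)
      set t : ℝ := min (1 / 2) (min ((1 - r ^ 2) / (16 * N)) (δ / (2 * (2 * C + 1)))) with ht
      have ht0 : 0 < t := by positivity
      have ht1 : t ≤ 1 / 2 := min_le_left _ _
      have ht2 : t ≤ (1 - r ^ 2) / (16 * N) := (min_le_right _ _).trans (min_le_left _ _)
      have ht3 : t ≤ δ / (2 * (2 * C + 1)) := (min_le_right _ _).trans (min_le_right _ _)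
      set z : ℂ := ((1 - t : ℝ) : ℂ) * ζ with hz
      have hznorm : ‖z‖ = 1 - t := by
        rw [hz, norm_mul, hζ1, mul_one, Complex.norm_real, Real.norm_eq_abs,
          abs_of_nonneg (by linarith)]
      have hzD : z ∈ D := by
        rw [mem_ball, dist_zero_right, hznorm]
        linarith
      obtain ⟨γ, hγ⟩ := hrc z hzD
      have hinv : mob (σ γ⁻¹) (mob (σ γ) z) = z := by
        rw [map_inv]
        refine (hSU1 _ (hσ.su γ)).2.2.2.2 z ?_
        rw [mem_closedBall, dist_zero_right, hznorm]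
        linarith
      obtain ⟨e1, e2⟩ := su_est (σ γ⁻¹) (hσ.su γ⁻¹) (mob (σ γ) z) r hr1 hγ
      rw [hinv, hznorm] at e2
      rw [hinv] at e1
      have hX : 0 < ‖(σ γ⁻¹ : Mat) 0 0‖ ^ 2 := by
        have := norm_pos_iff.mpr (su_ne _ (hσ.su γ⁻¹))
        positivity
      set X : ℝ := ‖(σ γ⁻¹ : Mat) 0 0‖ ^ 2 with hXd
      have e3 : 1 - r ^ 2 ≤ 8 * X * t := by nlinarith
      have e4 : 1 / ((1 - r) * X) ≤ 2 * C * t := by
        rw [hC, div_le_iff₀ (by positivity)]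
        have : 2 * (4 / ((1 - r) * (1 - r ^ 2))) * t * ((1 - r) * X) = 8 * X * t / (1 - r ^ 2) := by
          field_simp
          ring
        rw [this, le_div_iff₀ h1r2]
        linarith
      have hzζ : ‖z - ζ‖ = t := by
        have : z - ζ = -((t : ℝ) : ℂ) * ζ := by
          rw [hz]
          push_cast
          ring
        rw [this, norm_mul, norm_neg, hζ1, mul_one, Complex.norm_real, Real.norm_eq_abs,
          abs_of_pos ht0]
      have e5 : ‖mob (σ γ⁻¹) 0 - ζ‖ < δ := by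
        have h2 : ‖mob (σ γ⁻¹) 0 - ζ‖ ≤ ‖mob (σ γ⁻¹) 0 - z‖ + ‖z - ζ‖ := by
          have := norm_add_le (mob (σ γ⁻¹) 0 - z) (z - ζ)
          rwa [sub_add_sub_cancel] at this
        rw [norm_sub_rev (mob (σ γ⁻¹) 0) z, hzζ] at h2
        have h3 : t * (2 * (2 * C + 1)) ≤ δ := by rwa [le_div_iff₀ (by positivity)] at ht3
        nlinarith [mul_pos ht0 hC0]
      have e6 : X ≤ M := hM' γ⁻¹ e5
      have e7 : X ≤ N := e6.trans (le_max_left _ _)
      have e8 : t * (16 * N) ≤ 1 - r ^ 2 := by rwa [le_div_iff₀ (by positivity)] at ht2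
      nlinarith [mul_le_mul_of_nonneg_right e7 ht0.le]
  · intro ζ hζ ε hε
    refine ⟨min 1 (ε / 8), lt_min one_pos (by positivity), ?_⟩
    intro γ hγ
    have h2 : ‖mob (σ γ) 0 - ζ‖ < 1 := hγ.trans_le (min_le_left _ _)
    have h3 : ‖mob (σ γ) 0 - ζ‖ < ε / 8 := hγ.trans_le (min_le_right _ _)
    have h4 := hclose ζ hζ γ
    nlinarith [norm_nonneg (mob (σ γ) 0 - ζ)]

end Pool.Agent.Helper42.QD
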