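import Pool.Agent.Helper20.QD.St3

/-!
# Project QD, part B, module LLS: the limit set
-/

open Filter Topology Matrix Set Metric
open scoped ComplexConjugate ComplexOrder

namespace Pool.Agent.Helper42.QD

open Pool.Agent.Helper35.PM Pool.Agent.Helper20.QD

private lemma isClosed_psd : IsClosed {P : Mat | P.PosSemidef} := by
  have h : {P : Mat | P.PosSemidef} =
      {P : Mat | Pᴴ = P} ∩ ⋂ x : Fin 2 → ℂ, {P : Mat | 0 ≤ star x ⬝ᵥ (P *ᵥ x)} := by
    ext P
    simp only [mem_inter_iff, mem_iInter]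
    exact Matrix.posSemidef_iff_dotProduct_mulVec
  rw [h]
  refine IsClosed.inter (isClosed_eq (by fun_prop) (by fun_prop)) (isClosed_iInter fun x => ?_)
  exact isClosed_le continuous_const (by fun_prop)

private lemma isCompact_box : IsCompact {P : Mat | ∀ i j, P i j ∈ closedBall (0 : ℂ) 1} := by
  have h := isCompact_univ_pi (fun _ : Fin 2 => isCompact_univ_pi
    (fun _ : Fin 2 => isCompact_closedBall (0 : ℂ) 1))
  have e : {P : Mat | ∀ i j, P i j ∈ closedBall (0 : ℂ) 1} =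
      (Set.pi univ fun _ : Fin 2 => Set.pi univ fun _ : Fin 2 => closedBall (0 : ℂ) 1) := by
    ext P
    exact ⟨fun hP i _ j _ => hP i j, fun hP i j => hP i trivial j trivial⟩
  rw [e]
  exact h

/-- A cluster point of a family which is eventually in a closed set is in this set. -/
private lemma mem_of_cluster {X : Type*} {α : Type*} [TopologicalSpace X] {F : Filter α}
    {u : α → X} {x : X} {C : Set X} (hC : IsClosed C) (h : MapClusterPt x F u)
    (he : ∀ᶠ a in F, u a ∈ C) : x ∈ C := by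
  rw [← hC.closure_eq, mem_closure_iff_clusterPt]
  exact ClusterPt.mono h (by rwa [le_principal_iff, mem_map])

section

variable {Γ : Type} [Group Γ]

private lemma mem_limitSet_iff (hLFR : StLFR) (ρ : Γ →* SL) (Q : Mat) :
    Q ∈ limitSet ρ ↔ ∀ δ : ℝ, 0 < δ → {γ : Γ | fr (orb ρ γ) Q < δ}.Infinite := by
  have hb := hLFR.2.2.2 Q
  constructor
  · intro h δ hδ
    have h1 : MapClusterPt Q cofinite (fun γ : Γ => orb ρ γ) := h
    have h2 := (mapClusterPt_iff_frequently.mp h1) _ (hb.mem_of_mem hδ)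
    exact frequently_cofinite_iff_infinite.mp h2
  · intro h
    have h1 : MapClusterPt Q cofinite (fun γ : Γ => orb ρ γ) := by
      rw [mapClusterPt_iff_frequently]
      intro s hs
      obtain ⟨δ, hδ, hsub⟩ := hb.mem_iff.mp hs
      have h2 : ∃ᶠ γ in cofinite, fr (orb ρ γ) Q < δ := frequently_cofinite_iff_infinite.mpr (h δ hδ)
      exact h2.mono fun γ hγ => hsub hγ
    exact h1

private lemma entry_sq_le (P : Mat) (h : P.PosSemidef) (ht : P.trace = 1) (i j : Fin 2) :
    ‖P i j‖ ≤ 1 := by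
  have h0 : 0 ≤ P 0 0 := h.diag_nonneg
  have h1 : 0 ≤ P 1 1 := h.diag_nonneg
  have htr : P 0 0 + P 1 1 = 1 := by rw [← ht, Matrix.trace_fin_two]
  have hdet : 0 ≤ P.det := h.det_nonneg
  rw [Matrix.det_fin_two] at hdet
  have hH : P 1 0 = star (P 0 1) := (h.isHermitian.apply 1 0).symm
  have r0 := (Complex.le_def.mp h0).1
  have r1 := (Complex.le_def.mp h1).1
  have i0 := (Complex.le_def.mp h0).2
  have i1 := (Complex.le_def.mp h1).2
  have rt := congrArg Complex.re htr
  simp only [Complex.zero_re, Complex.zero_im, Complex.add_re, Complex.one_re] at r0 r1 i0 i1 rt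
  have n0 : ‖P 0 0‖ = (P 0 0).re := by
    have : P 0 0 = (((P 0 0).re : ℝ) : ℂ) := Complex.ext (by simp) (by simp [← i0])
    rw [this, Complex.norm_real, Real.norm_eq_abs, abs_of_nonneg (by simpa using r0)]
    simp
  have n1 : ‖P 1 1‖ = (P 1 1).re := by
    have : P 1 1 = (((P 1 1).re : ℝ) : ℂ) := Complex.ext (by simp) (by simp [← i1])
    rw [this, Complex.norm_real, Real.norm_eq_abs, abs_of_nonneg (by simpa using r1)]
    simp
  have hd := (Complex.le_def.mp hdet).1
  have hprod : (P 0 1 * P 1 0).re = ‖P 0 1‖ ^ 2 := by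
    rw [hH]
    have : P 0 1 * star (P 0 1) = ((‖P 0 1‖ ^ 2 : ℝ) : ℂ) := by
      rw [← starRingEnd_apply, Complex.mul_conj, Complex.normSq_eq_norm_sq]
    rw [this, Complex.ofReal_re]
  rw [Complex.sub_re, hprod, Complex.mul_re, ← i0, ← i1, Complex.zero_re] at hd
  have h01 : ‖P 0 1‖ ^ 2 ≤ 1 := by nlinarith
  have h01' : ‖P 0 1‖ ≤ 1 := by nlinarith [norm_nonneg (P 0 1)]
  have h10' : ‖P 1 0‖ ≤ 1 := by rw [hH, norm_star]; exact h01'
  fin_cases i <;> fin_cases j
  · show ‖P 0 0‖ ≤ 1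
    rw [n0]; linarith
  · exact h01'
  · exact h10'
  · show ‖P 1 1‖ ≤ 1
    rw [n1]; linarith

private lemma density_smul (c : ℂ) (hc : c ≠ 0) (P : Mat) : density (c • P) = density P := by
  unfold density
  rw [Matrix.trace_smul, smul_smul, smul_eq_mul, mul_inv, mul_comm c⁻¹, mul_assoc,
    inv_mul_cancel₀ hc, mul_one]

private lemma orb_mul (hLMX : StLMX) (ρ : Γ →* SL) (γ δ : Γ) :
    orb ρ (γ * δ) = act (ρ γ) (orb ρ δ) := by
  have ht : ((ρ δ : Mat) * (ρ δ : Mat)ᴴ).trace ≠ 0 := by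
    intro h
    have h1 := (hLMX.2.2.2.1 (ρ δ)).2.1
    unfold density at h1
    rw [h] at h1
    simp at h1
  unfold act orb
  have h1 : ((ρ γ : SL) : Mat) * density ((ρ δ : Mat) * (ρ δ : Mat)ᴴ) * ((ρ γ : SL) : Mat)ᴴ =
      (((ρ δ : Mat) * (ρ δ : Mat)ᴴ).trace)⁻¹ •
        ((ρ (γ * δ) : Mat) * (ρ (γ * δ) : Mat)ᴴ) := by
    unfold density
    rw [Matrix.mul_smul, Matrix.smul_mul, map_mul, Matrix.SpecialLinearGroup.coe_mul,
      Matrix.conjTranspose_mul]
    simp only [Matrix.mul_assoc]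
  rw [h1, density_smul _ (inv_ne_zero ht)]

private lemma act_contAt (A : SL) (Q : Mat) (h : ((A : Mat) * Q * (A : Mat)ᴴ).trace ≠ 0) :
    ContinuousAt (act A) Q := by
  unfold act density
  have h1 : Continuous fun P : Mat => (A : Mat) * P * (A : Mat)ᴴ := by fun_prop
  have h2 : Continuous fun P : Mat => ((A : Mat) * P * (A : Mat)ᴴ).trace := by fun_prop
  exact (h2.continuousAt.inv₀ h).smul h1.continuousAt

end

/-- LLS (the limit set). -/
theorem hLLS (hLFR : StLFR) (_hLQC : StLQC) (hLMX : StLMX) : StLLS := by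
  intro Γ _ ρ hd
  have hposdef := hLMX.2.2.2.1
  have horb : ∀ γ : Γ, (orb ρ γ).PosDef ∧ (orb ρ γ).trace = 1 ∧
      (orb ρ γ).det = (((1 / hs (ρ γ : Mat) ^ 2 : ℝ)) : ℂ) := fun γ => hposdef (ρ γ)
  have hsph : limitSet ρ ⊆ sph := by
    intro Q hQ
    have h1 : MapClusterPt Q cofinite (fun γ : Γ => orb ρ γ) := hQ
    refine ⟨?_, ?_, ?_⟩
    · exact mem_of_cluster (C := {P : Mat | P.PosSemidef}) isClosed_psd h1
        (Eventually.of_forall fun γ => (horb γ).1.posSemidef)
    · have hc : IsClosed {P : Mat | P.trace = 1} := isClosed_eq (by fun_prop) continuous_const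
      exact mem_of_cluster (C := {P : Mat | P.trace = 1}) hc h1
        (Eventually.of_forall fun γ => (horb γ).2.1)
    · have key : ∀ η : ℝ, 0 < η → ‖Q.det‖ ≤ η := by
        intro η hη
        have hc : IsClosed {P : Mat | ‖P.det‖ ≤ η} := isClosed_le (by fun_prop) continuous_const
        refine mem_of_cluster (C := {P : Mat | ‖P.det‖ ≤ η}) hc h1 ?_
        have hfin := hd (max 1 (1 / η))
        have : ∀ᶠ γ : Γ in cofinite, ¬ hs (ρ γ : Mat) ≤ max 1 (1 / η) := hfin.compl_mem_cofinite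
        filter_upwards [this] with γ hγ
        push Not at hγ
        have h2 : 1 < hs (ρ γ : Mat) := lt_of_le_of_lt (le_max_left _ _) hγ
        have h3 : 1 / η < hs (ρ γ : Mat) := lt_of_le_of_lt (le_max_right _ _) hγ
        have h4 : hs (ρ γ : Mat) ≤ hs (ρ γ : Mat) ^ 2 := by nlinarith
        show ‖(orb ρ γ).det‖ ≤ η
        rw [(horb γ).2.2, Complex.norm_real, Real.norm_eq_abs, abs_of_nonneg (by positivity)]
        have h5 : 1 / η < hs (ρ γ : Mat) ^ 2 := lt_of_lt_of_le h3 h4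
        rw [div_le_iff₀ (by positivity)]
        rw [div_lt_iff₀ hη] at h5
        linarith
      have h0 : ‖Q.det‖ ≤ 0 := le_of_forall_pos_le_add (fun ε hε => by simpa using key ε hε)
      exact norm_le_zero_iff.mp h0
  refine ⟨?_, hsph, ?_, ?_, ?_⟩
  · exact isClosed_setOfPred_clusterPt
  · intro ε hε
    by_contra hinf
    have hinf' : {γ : Γ | ∀ Q ∈ limitSet ρ, ε ≤ fr (orb ρ γ) Q}.Infinite := hinf
    set S : Set Γ := {γ : Γ | ∀ Q ∈ limitSet ρ, ε ≤ fr (orb ρ γ) Q} with hS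
    have hne : NeBot (cofinite ⊓ 𝓟 S : Filter Γ) := hinf'.cofinite_inf_principal_neBot
    have hK := isCompact_box
    have hle : map (fun γ : Γ => orb ρ γ) (cofinite ⊓ 𝓟 S) ≤
        𝓟 {P : Mat | ∀ i j, P i j ∈ closedBall (0 : ℂ) 1} := by
      rw [le_principal_iff, mem_map]
      refine univ_mem' fun γ => ?_
      intro i j
      rw [mem_closedBall, dist_zero_right]
      exact entry_sq_le _ (horb γ).1.posSemidef (horb γ).2.1 i j
    obtain ⟨Q, _, hQ⟩ := hK hle
    have hQ' : MapClusterPt Q (cofinite ⊓ 𝓟 S) (fun γ : Γ => orb ρ γ) := hQ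
    have hQlim : Q ∈ limitSet ρ := MapClusterPt.mono hQ' inf_le_left
    have h2 := (mapClusterPt_iff_frequently.mp hQ') _ ((hLFR.2.2.2 Q).mem_of_mem hε)
    have h3 : ∀ᶠ γ in (cofinite ⊓ 𝓟 S : Filter Γ), γ ∈ S :=
      mem_inf_of_right (mem_principal_self S)
    obtain ⟨γ, hγ1, hγ2⟩ := (h2.and_eventually h3).exists
    have h4 : ε ≤ fr (orb ρ γ) Q := hγ2 Q hQlim
    have h5 : fr (orb ρ γ) Q < ε := hγ1
    linarith
  · intro γ Q hQ
    have h1 : MapClusterPt Q cofinite (fun δ : Γ => orb ρ δ) := hQ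
    have hpos := (hLMX.2.2.2.2.1 (ρ γ) Q (hsph hQ)).1
    have hne : ((ρ γ : Mat) * Q * (ρ γ : Mat)ᴴ).trace ≠ 0 := by
      intro h
      rw [h] at hpos
      simp at hpos
    have h2 := h1.continuousAt_comp (act_contAt (ρ γ) Q hne)
    have h3 : (act (ρ γ) ∘ fun δ : Γ => orb ρ δ) = (fun δ : Γ => orb ρ δ) ∘ (fun δ => γ * δ) := by
      funext δ
      exact (orb_mul hLMX ρ γ δ).symm
    rw [h3] at h2
    exact MapClusterPt.of_comp ((mul_right_injective γ).tendsto_cofinite) h2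
  · intro Q hQ ε hε X
    have h1 := (mem_limitSet_iff hLFR ρ Q).mp hQ ε hε
    obtain ⟨γ, hγ, hγ'⟩ := h1.exists_notMem_finite (hd X)
    refine ⟨γ, hγ, ?_⟩
    simpa using hγ'

end Pool.Agent.Helper42.QD
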