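import Pool.Agent.Helper20.QD.St1

/-!
# Project QD, part B: module TLG (logarithms on a bounded open set with connected complement)
-/

set_option autoImplicit false

open Filter Topology Matrix Set Metric
open scoped ComplexConjugate

namespace Pool.Agent.Helper42.QD

open Pool.Agent.Helper35.PM Pool.Agent.Helper20.QD

/-- uniqueness of continuous logarithms -/
private theorem log_unique {s : Set ℂ} (hs : IsPreconnected s) {g h : ℂ → ℂ}
    (hg : ContinuousOn g s) (hh : ContinuousOn h s) (he : ∀ z ∈ s, Complex.exp (g z) = Complex.exp (h z))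
    {a : ℂ} (ha : a ∈ s) (hab : g a = h a) : ∀ z ∈ s, g z = h z := by
  refine Complex.isCoveringMap_exp.eqOn_of_comp_eqOn hs hg hh ?_ ha hab
  intro z hz
  exact Subtype.ext (he z hz)

private theorem thick_preconnected {S : Set ℂ} (hS : IsPreconnected S) (ε : ℝ) :
    IsPreconnected (thickening ε S) := by
  rcases S.eq_empty_or_nonempty with h | ⟨x, hx⟩
  · rw [h, thickening_empty]
    exact isPreconnected_empty
  · by_cases hε : 0 < ε
    · refine isPreconnected_of_forall x fun y hy => ?_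
      obtain ⟨s, hs, hys⟩ := mem_thickening_iff.1 hy
      refine ⟨S ∪ ball s ε, ?_, Or.inl hx, Or.inr hys, ?_⟩
      · refine union_subset (self_subset_thickening hε S) ?_
        intro z hz
        exact mem_thickening_iff.2 ⟨s, hs, hz⟩
      · exact hS.union s hs (mem_ball_self hε) (convex_ball s ε).isPreconnected
    · rw [thickening_of_nonpos (not_lt.1 hε)]
      exact isPreconnected_empty

theorem hTLG (hTPB : StTPB) (hTGE : StTGE) (hTSA : StTSA) : StTLG := by
  intro U u hUo hUb hUc hUcc hu hu0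
  rcases U.eq_empty_or_nonempty with hemp | ⟨z0, hz0⟩
  · rw [hemp]
    exact ⟨fun _ => 0, continuousOn_empty _, fun z hz => hz.elim⟩
  obtain ⟨-, -, tp3, tp4, -, tp6⟩ := hTPB
  obtain ⟨ts1, ts2⟩ := hTSA
  obtain ⟨R, hR⟩ := hUb.subset_ball 0
  have hRU : (R : ℂ) ∉ U := by
    intro h
    have := hR h
    rw [mem_ball_zero_iff, Complex.norm_real, Real.norm_eq_abs] at this
    exact absurd this (not_lt.2 (le_abs_self R))
  have hne : (Uᶜ : Set ℂ).Nonempty := ⟨(R : ℂ), hRU⟩
  have hcl : IsClosed (Uᶜ : Set ℂ) := hUo.isClosed_compl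
  have hpos : ∀ z ∈ U, 0 < infDist z Uᶜ := by
    intro z hz
    exact (hcl.notMem_iff_infDist_pos hne).1 (fun h => h hz)
  -- the exhaustion
  obtain ⟨δ, hδ, hδz⟩ : ∃ δ : ℝ, 0 < δ ∧ δ ≤ infDist z0 Uᶜ := ⟨_, hpos z0 hz0, le_rfl⟩
  obtain ⟨K, hK⟩ : ∃ K : ℕ → Set ℂ, K = fun n : ℕ => {z | δ / ((n : ℝ) + 1) ≤ infDist z Uᶜ} := ⟨_, rfl⟩
  have memK : ∀ n z, z ∈ K n ↔ δ / (n + 1) ≤ infDist z Uᶜ := by
    intro n z
    rw [hK]
    exact Iff.rfl
  have hεpos : ∀ n : ℕ, 0 < δ / ((n : ℝ) + 1) := fun n => by positivity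
  have hKU : ∀ n, K n ⊆ U := by
    intro n z hz
    by_contra h
    have h1 : infDist z Uᶜ = 0 := infDist_zero_of_mem h
    have h2 := (memK n z).1 hz
    have := hεpos n
    linarith
  have hKclosed : ∀ n, IsClosed (K n) := by
    intro n
    have : K n = (fun z => infDist z Uᶜ) ⁻¹' Ici (δ / (n + 1)) := by
      ext z
      rw [memK]
      exact Iff.rfl
    rw [this]
    exact isClosed_Ici.preimage (continuous_infDist_pt _)
  have hKcomp : ∀ n, IsCompact (K n) := fun n =>
    isCompact_of_isClosed_isBounded (hKclosed n) (hUb.subset (hKU n))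
  have hKmono : ∀ m n, m ≤ n → K m ⊆ K n := by
    intro m n hmn z hz
    rw [memK] at hz ⊢
    refine le_trans ?_ hz
    apply div_le_div_of_nonneg_left hδ.le (by positivity)
    have : (m : ℝ) ≤ n := by exact_mod_cast hmn
    linarith
  have hz0K : z0 ∈ K 0 := by
    rw [memK]
    simpa using hδz
  have hKc : ∀ n, IsPreconnected (K n)ᶜ := by
    intro n
    have : (K n)ᶜ = thickening (δ / (n + 1)) Uᶜ := by
      ext z
      rw [mem_compl_iff, memK, not_le, mem_thickening_iff_infDist_lt hne]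
    rw [this]
    exact thick_preconnected hUcc _
  -- logarithms on the compact sets
  have hlin : ∀ n, ∀ t, t ∉ K n → LogOn (K n) (fun z => z - t) := by
    intro n t ht
    have hRK : (R : ℂ) ∉ K n := fun h => hRU (hKU n h)
    have h1 := ts1 (K n) (K n)ᶜ t (R : ℂ) (hKcomp n) (hKc n) disjoint_compl_left ht hRK
    have h2 := ts2 (K n) (R : ℂ) R ((hKU n).trans hR)
      (by rw [Complex.norm_real, Real.norm_eq_abs]; exact le_abs_self R)
    have h3 := tp3 (K n) _ _ h1 h2
    refine tp6 (K n) (K n) _ _ Subset.rfl h3 fun z hz => ?_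
    have hzR : z - (R : ℂ) ≠ 0 := by
      intro h
      rw [sub_eq_zero] at h
      exact hRK (h ▸ hz)
    exact div_mul_cancel₀ _ hzR
  have hlog : ∀ n, LogOn (K n) u := by
    intro n
    obtain ⟨T, k, hT, hTl⟩ := hTGE (K n) u (hKcomp n) (hu.mono (hKU n))
      (fun z hz => hu0 z (hKU n hz))
    have hprod : ∀ T' : Finset ℂ, (∀ t ∈ T', t ∉ K n) →
        LogOn (K n) (fun z => ∏ t ∈ T', (z - t) ^ (-(k t))) := by
      intro T'
      induction T' using Finset.induction_on with
      | empty =>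
        intro _
        exact ⟨fun _ => 0, continuousOn_const, fun z _ => by simp⟩
      | insert a s ha ih =>
        intro h
        have h1 := tp4 (K n) _ (-(k a)) (hlin n a (h a (Finset.mem_insert_self a s)))
        have h2 := ih fun t ht => h t (Finset.mem_insert_of_mem ht)
        refine tp6 (K n) (K n) _ _ Subset.rfl (tp3 (K n) _ _ h1 h2) fun z _ => ?_
        rw [Finset.prod_insert ha]
    refine tp6 (K n) (K n) _ _ Subset.rfl (tp3 (K n) _ _ hTl (hprod T hT)) fun z hz => ?_
    have h0 : ∀ t ∈ T, z - t ≠ 0 := by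
      intro t ht h
      rw [sub_eq_zero] at h
      exact hT t ht (h ▸ hz)
    rw [mul_assoc, ← Finset.prod_mul_distrib]
    have h1 : ∏ t ∈ T, (z - t) ^ (k t) * (z - t) ^ (-(k t)) = 1 := by
      refine Finset.prod_eq_one fun t ht => ?_
      rw [_root_.zpow_neg]
      exact mul_inv_cancel₀ (zpow_ne_zero _ (h0 t ht))
    rw [h1, mul_one]
  -- normalised logarithms
  have hlog' : ∀ n, ∃ g : ℂ → ℂ, ContinuousOn g (K n) ∧ (∀ z ∈ K n, u z = Complex.exp (g z)) ∧
      g z0 = Complex.log (u z0) := by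
    intro n
    obtain ⟨g, hg, hge⟩ := hlog n
    have h0 : z0 ∈ K n := hKmono 0 n (Nat.zero_le n) hz0K
    refine ⟨fun z => g z - g z0 + Complex.log (u z0), ?_, ?_, ?_⟩
    · exact (hg.sub continuousOn_const).add continuousOn_const
    · intro z hz
      rw [Complex.exp_add, Complex.exp_sub, ← hge z hz, ← hge z0 h0,
        Complex.exp_log (hu0 z0 hz0), div_mul_cancel₀ _ (hu0 z0 hz0)]
    · show g z0 - g z0 + Complex.log (u z0) = Complex.log (u z0)
      rw [sub_self, zero_add]
  choose g hgc hge hg0 using hlog'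
  obtain ⟨C, hC⟩ : ∃ C : ℕ → Set ℂ, C = fun n => connectedComponentIn (K n) z0 := ⟨_, rfl⟩
  have hCK : ∀ n, C n ⊆ K n := by
    intro n
    rw [hC]
    exact connectedComponentIn_subset _ _
  have hCp : ∀ n, IsPreconnected (C n) := by
    intro n
    rw [hC]
    exact isPreconnected_connectedComponentIn
  have hz0C : ∀ n, z0 ∈ C n := by
    intro n
    rw [hC]
    exact mem_connectedComponentIn (hKmono 0 n (Nat.zero_le n) hz0K)
  have hCmono : ∀ m n, m ≤ n → C m ⊆ C n := by
    intro m n hmn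
    have h := (hCp m).subset_connectedComponentIn (hz0C m) ((hCK m).trans (hKmono m n hmn))
    rw [hC] at h ⊢
    exact h
  have hagree : ∀ m n, n ≤ m → ∀ z ∈ C n, g m z = g n z := by
    intro m n hnm
    refine log_unique (hCp n) ((hgc m).mono ((hCK n).trans (hKmono n m hnm)))
      ((hgc n).mono (hCK n)) ?_ (hz0C n) (by rw [hg0, hg0])
    intro z hz
    rw [← hge m z (hKmono n m hnm (hCK n hz)), ← hge n z (hCK n hz)]
  -- balls
  have hball : ∀ z ∈ U, ∃ r : ℝ, 0 < r ∧ ∃ m, ball z r ⊆ K m := by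
    intro z hz
    have h1 := hpos z hz
    refine ⟨infDist z Uᶜ / 2, by positivity, ?_⟩
    obtain ⟨m, hm⟩ := exists_nat_gt (δ / (infDist z Uᶜ / 2))
    refine ⟨m, fun w hw => ?_⟩
    rw [memK]
    have h2 : infDist z Uᶜ ≤ infDist w Uᶜ + dist z w := infDist_le_infDist_add_dist
    rw [mem_ball, dist_comm] at hw
    have h3 : infDist z Uᶜ / 2 ≤ infDist w Uᶜ := by linarith
    refine le_trans ?_ h3
    rw [div_le_iff₀ (by positivity)]
    rw [div_lt_iff₀ (by positivity)] at hm
    nlinarith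
  -- the exhaustion by the components
  have hexh : ∀ z ∈ U, ∃ n, C n ∈ 𝓝 z := by
    obtain ⟨A, hA⟩ : ∃ A : Set ℂ, A = ⋃ n, interior (C n) := ⟨_, rfl⟩
    have hAo : IsOpen A := by
      rw [hA]
      exact isOpen_iUnion fun n => isOpen_interior
    have hmem : ∀ z, z ∈ A ↔ ∃ n, C n ∈ 𝓝 z := by
      intro z
      rw [hA, mem_iUnion]
      exact exists_congr fun n => mem_interior_iff_mem_nhds
    have hstep : ∀ z ∈ U, ∀ r : ℝ, 0 < r → ∀ m, ball z r ⊆ K m → (∃ a ∈ ball z r, ∃ n, a ∈ C n) →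
        z ∈ A := by
      rintro z _ r hr m hm ⟨a, ha, n, han⟩
      rw [hmem]
      refine ⟨max m n, ?_⟩
      have h1 : a ∈ C (max m n) := hCmono n _ (le_max_right m n) han
      have h2 : ball z r ⊆ K (max m n) := hm.trans (hKmono m _ (le_max_left m n))
      have h3 : C (max m n) ∪ ball z r ⊆ C (max m n) := by
        have h4 := ((hCp (max m n)).union a h1 ha (convex_ball z r).isPreconnected)
        have h5 := h4.subset_connectedComponentIn (Or.inl (hz0C _))
          (union_subset (hCK _) h2)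
        rw [hC] at h5 ⊢
        exact h5
      exact mem_of_superset (ball_mem_nhds z hr) (subset_union_right.trans h3)
    have hsub : U ⊆ A := by
      refine hUc.subset_of_closure_inter_subset hAo ⟨z0, hz0, ?_⟩ ?_
      · obtain ⟨r, hr, m, hm⟩ := hball z0 hz0
        exact hstep z0 hz0 r hr m hm ⟨z0, mem_ball_self hr, 0, hz0C 0⟩
      · rintro z ⟨hz1, hz2⟩
        obtain ⟨r, hr, m, hm⟩ := hball z hz2
        refine hstep z hz2 r hr m hm ?_
        obtain ⟨a, ha, hda⟩ := Metric.mem_closure_iff.1 hz1 r hr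
        rw [hmem] at ha
        obtain ⟨n, hn⟩ := ha
        refine ⟨a, ?_, n, mem_of_mem_nhds hn⟩
        rw [mem_ball, dist_comm]
        exact hda
    intro z hz
    exact (hmem z).1 (hsub hz)
  -- the logarithm
  classical
  have hex : ∀ z ∈ U, ∃ n, z ∈ C n := fun z hz => by
    obtain ⟨n, hn⟩ := hexh z hz
    exact ⟨n, mem_of_mem_nhds hn⟩
  obtain ⟨G, hG⟩ : ∃ G : ℂ → ℂ, G = fun z => if h : ∃ n, z ∈ C n then g (Nat.find h) z else 0 :=
    ⟨_, rfl⟩
  have hGg : ∀ k, ∀ z ∈ C k, G z = g k z := by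
    intro k z hz
    have h : ∃ n, z ∈ C n := ⟨k, hz⟩
    have h1 : G z = g (Nat.find h) z := by
      rw [hG]
      exact dif_pos h
    rw [h1]
    exact (hagree k (Nat.find h) (Nat.find_min' h hz) z (Nat.find_spec h)).symm
  refine ⟨G, ?_, ?_⟩
  · intro z hz
    obtain ⟨k, hk⟩ := hexh z hz
    have h1 : ContinuousAt (g k) z := (hgc k).continuousAt (mem_of_superset hk (hCK k))
    have h2 : G =ᶠ[𝓝 z] g k := by
      filter_upwards [hk] with w hw
      exact hGg k w hw
    exact (h1.congr h2.symm).continuousWithinAt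
  · intro z hz
    obtain ⟨k, hk⟩ := hex z hz
    rw [hGg k z hk]
    exact hge k z (hCK k hk)

end Pool.Agent.Helper42.QD
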